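import Pool.Agent.BonT.Lower
import Pool.Agent.BonT.Size
import Pool.Agent.BonT.Upper

/-!
# MP_001630_co: the number of bone tilings of the `(a_k, b_k)`-benzel grows like `exp (Θ(k ^ 4))`

For every `k ≥ 2`, `3 ^ (k ^ 3 (k - 9) / 8) ≤ N(k) ≤ 3 ^ (3 k ^ 2 (k ^ 2 - 1) / 4)`, where the upper exponent is
the number of bones in a tiling; hence `log N(k) = Θ(k ^ 4)`.
-/

set_option autoImplicit false

namespace Pool.Agent.Results.MP_001630_co.Growth

open Pool.Agent.BonT Asymptotics Filter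

theorem params (w : ℕ) :
    benzel (((w + 1 : ℕ) : ℤ) * (3 * ((w + 1 : ℕ) : ℤ) - 1) / 2)
      (((w + 1 : ℕ) : ℤ) * (3 * ((w + 1 : ℕ) : ℤ) + 1) / 2) =
    benzel (3 * tri w + w + 1) (3 * tri w + 2 * w + 2) := by
  have h := two_tri w
  have h' : 2 * (tri w : ℤ) = w * (w + 1) := by exact_mod_cast h
  have e1 : ((w + 1 : ℕ) : ℤ) * (3 * ((w + 1 : ℕ) : ℤ) - 1) = 2 * (3 * tri w + w + 1) := by
    push_cast; linear_combination -3 * h'
  have e2 : ((w + 1 : ℕ) : ℤ) * (3 * ((w + 1 : ℕ) : ℤ) + 1) = 2 * (3 * tri w + 2 * w + 2) := by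
    push_cast; linear_combination -3 * h'
  rw [e1, e2, Int.mul_ediv_cancel_left _ (by norm_num), Int.mul_ediv_cancel_left _ (by norm_num)]

theorem number (w : ℕ) :
    tilingNumber (w + 1) = cnt (benzel (3 * tri w + w + 1) (3 * tri w + 2 * w + 2)) := by
  unfold tilingNumber
  rw [params]

theorem lower (k : ℕ) (hk : 1 ≤ k) : 3 ^ (k ^ 3 * (k - 9) / 8) ≤ tilingNumber k := by
  obtain ⟨w, rfl⟩ : ∃ w, k = w + 1 := ⟨k - 1, by omega⟩
  rw [number]
  have hle := le_tri w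
  have h := (benzel_atLeast (n := tri w) (w := w) (by positivity) (by positivity)
    (by omega) (V_atLeast w)).2
  refine le_trans (Nat.pow_le_pow_right (by norm_num) ?_) h
  have h2 := ex_bound w
  apply Nat.div_le_of_le_mul
  rcases Nat.lt_or_ge w 8 with h8 | h8
  · have : w + 1 - 9 = 0 := by omega
    rw [this]; simp
  · obtain ⟨v, rfl⟩ : ∃ v, w = v + 8 := ⟨w - 8, by omega⟩
    have e : v + 8 + 1 - 9 = v := by omega
    rw [e]
    nlinarith [h2]

theorem upper (k : ℕ) (hk : 1 ≤ k) :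
    tilingNumber k ≤ 3 ^ (3 * k ^ 2 * (k ^ 2 - 1) / 4) := by
  obtain ⟨w, rfl⟩ : ∃ w, k = w + 1 := ⟨k - 1, by omega⟩
  rw [number]
  have hS := benzel_Sz w
  refine (cnt_le hS.1).trans (Nat.pow_le_pow_right (by norm_num) ?_)
  rw [hS.2]
  rw [Nat.le_div_iff_mul_le (by norm_num)]
  have e0 : 9 * tri w * tri (w + 1) / 3 = 3 * tri w * tri (w + 1) := by
    have : 9 * tri w * tri (w + 1) = 3 * (3 * tri w * tri (w + 1)) := by ring
    rw [this, Nat.mul_div_cancel_left _ (by norm_num)]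
  rw [e0]
  have e1 : (w + 1) ^ 2 - 1 = w * (w + 2) := by
    have : (w + 1) ^ 2 = w * (w + 2) + 1 := by ring
    rw [this, Nat.add_sub_cancel]
  rw [e1]
  have h1 := two_tri w
  have h2 := two_tri (w + 1)
  apply le_of_eq
  calc 3 * tri w * tri (w + 1) * 4 = 3 * (2 * tri w) * (2 * tri (w + 1)) := by ring
    _ = 3 * (w + 1) ^ 2 * (w * (w + 2)) := by rw [h1, h2]; ring

/-- Two-sided bounds for the number `N(k)` of bone tilings, and `log N(k) = Θ(k ^ 4)`. -/
theorem result :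
    (∀ k : ℕ, 2 ≤ k → 3 ^ (k ^ 3 * (k - 9) / 8) ≤ tilingNumber k ∧
      tilingNumber k ≤ 3 ^ (3 * k ^ 2 * (k ^ 2 - 1) / 4)) ∧
    (fun k : ℕ => Real.log (tilingNumber k)) =Θ[atTop] (fun k : ℕ => (k : ℝ) ^ 4) := by
  refine ⟨fun k hk => ⟨lower k (by omega), upper k (by omega)⟩, ?_⟩
  have hl3 : 0 < Real.log 3 := Real.log_pos (by norm_num)
  constructor
  · refine IsBigO.of_bound (Real.log 3) ?_
    filter_upwards [eventually_ge_atTop 1] with k hk
    have hu := upper k hk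
    have hl : 1 ≤ tilingNumber k := (Nat.one_le_pow _ _ (by norm_num)).trans (lower k hk)
    have h0 : (0 : ℝ) ≤ Real.log (tilingNumber k) := Real.log_natCast_nonneg _
    rw [Real.norm_of_nonneg h0, Real.norm_of_nonneg (by positivity)]
    have h1 : (tilingNumber k : ℝ) ≤ (3 : ℝ) ^ (3 * k ^ 2 * (k ^ 2 - 1) / 4) := by
      exact_mod_cast hu
    have h2 := Real.log_le_log (by exact_mod_cast hl) h1
    rw [Real.log_pow] at h2
    have h3 : 3 * k ^ 2 * (k ^ 2 - 1) / 4 ≤ k ^ 4 := by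
      refine (Nat.div_le_div_right (Nat.mul_le_mul_left _ (Nat.sub_le _ _))).trans ?_
      apply Nat.div_le_of_le_mul
      nlinarith [Nat.zero_le (k ^ 4)]
    have h4 : ((3 * k ^ 2 * (k ^ 2 - 1) / 4 : ℕ) : ℝ) ≤ (k : ℝ) ^ 4 := by exact_mod_cast h3
    calc Real.log (tilingNumber k) ≤ _ := h2
      _ ≤ (k : ℝ) ^ 4 * Real.log 3 := mul_le_mul_of_nonneg_right h4 hl3.le
      _ = Real.log 3 * (k : ℝ) ^ 4 := mul_comm _ _
  · refine IsBigO.of_bound (32 / Real.log 3) ?_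
    filter_upwards [eventually_ge_atTop 18] with k hk
    have hl := lower k (by omega)
    have h0 : (0 : ℝ) ≤ Real.log (tilingNumber k) := Real.log_natCast_nonneg _
    rw [Real.norm_of_nonneg h0, Real.norm_of_nonneg (by positivity)]
    have h1 : (3 : ℝ) ^ (k ^ 3 * (k - 9) / 8) ≤ (tilingNumber k : ℝ) := by
      exact_mod_cast hl
    have h2 := Real.log_le_log (by positivity) h1
    rw [Real.log_pow] at h2
    have h3 : k ^ 4 ≤ 32 * (k ^ 3 * (k - 9) / 8) := by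
      have e1 : k ≤ 2 * (k - 9) := by omega
      have e2 : k ^ 4 ≤ 2 * (k ^ 3 * (k - 9)) := by
        calc k ^ 4 = k ^ 3 * k := by ring
          _ ≤ k ^ 3 * (2 * (k - 9)) := Nat.mul_le_mul_left _ e1
          _ = 2 * (k ^ 3 * (k - 9)) := by ring
      have e3 : 16 ≤ k ^ 3 * (k - 9) := by
        have : 1 ≤ k ^ 3 := Nat.one_le_pow _ _ (by omega)
        have h18 : 18 ^ 3 ≤ k ^ 3 := Nat.pow_le_pow_left hk 3
        have : 1 ≤ k - 9 := by omega
        nlinarith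
      omega
    have h4 : (k : ℝ) ^ 4 ≤ 32 * ((k ^ 3 * (k - 9) / 8 : ℕ) : ℝ) := by exact_mod_cast h3
    rw [div_mul_eq_mul_div, le_div_iff₀ hl3]
    calc (k : ℝ) ^ 4 * Real.log 3 ≤ 32 * ((k ^ 3 * (k - 9) / 8 : ℕ) : ℝ) * Real.log 3 :=
          mul_le_mul_of_nonneg_right h4 hl3.le
      _ = 32 * (((k ^ 3 * (k - 9) / 8 : ℕ) : ℝ) * Real.log 3) := by ring
      _ ≤ 32 * Real.log (tilingNumber k) := by
          refine mul_le_mul_of_nonneg_left h2 (by norm_num)

end Pool.Agent.Results.MP_001630_co.Growth
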