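import Pool.Agent.BonT.RecB
import Pool.Agent.BonT.Size

/-!
# MP_001630_co: an explicit recursion with `2 ^ O(k ^ 2)` terms for the number `N(k)` of bone tilings

Cover the cells of the benzel in the order of `z`, then `y`, always placing the bone that covers the first
uncovered cell. At most `5 k ^ 4 2 ^ (3 k ^ 2)` covered sets occur, each has at most three successors, and every
function on covered sets with value `1` at the full benzel which satisfies the successor recursion has the value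
`N(k)` at the empty set.
-/

set_option autoImplicit false

namespace Pool.Agent.Results.MP_001630_co.Recursion

open Pool.Agent.BonT

theorem params (w : ℕ) :
    benzel (((w + 1 : ℕ) : ℤ) * (3 * ((w + 1 : ℕ) : ℤ) - 1) / 2)
      (((w + 1 : ℕ) : ℤ) * (3 * ((w + 1 : ℕ) : ℤ) + 1) / 2) =
    benzel (3 * tri w + w + 1) (3 * tri w + 2 * w + 2) := by
  have h := two_tri w
  have h' : 2 * (tri w : ℤ) = w * (w + 1) := by exact_mod_cast h
  have e1 : ((w + 1 : ℕ) : ℤ) * (3 * ((w + 1 : ℕ) : ℤ) - 1) = 2 * (3 * tri w + w + 1) := by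
    push_cast; linear_combination -3 * h'
  have e2 : ((w + 1 : ℕ) : ℤ) * (3 * ((w + 1 : ℕ) : ℤ) + 1) = 2 * (3 * tri w + 2 * w + 2) := by
    push_cast; linear_combination -3 * h'
  rw [e1, e2, Int.mul_ediv_cancel_left _ (by norm_num), Int.mul_ediv_cancel_left _ (by norm_num)]

/-- A function which satisfies the recursion counts the tilings of the uncovered part. -/
theorem value {R : Set (ℤ × ℤ × ℤ)} (hR : R.Finite) (hp : Plane R) {f : Set (ℤ × ℤ × ℤ) → ℕ}
    (h1 : f R = 1) (hf : ∀ C ∈ states R, C ≠ R → f C = ∑ᶠ C' ∈ moves R C, f C') (n : ℕ) :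
    ∀ C ∈ states R, (R \ C).ncard = n → f C = cnt (R \ C) := by
  induction n using Nat.strong_induction_on with
  | _ n ih =>
    intro C hC hn
    by_cases hCR : C = R
    · rw [hCR, h1, Set.sdiff_self]; exact cnt_empty.symm
    · have hsub := (inv_states hC).1
      rw [hf C hC hCR, cnt_rec hR hp hsub hCR]
      refine finsum_mem_congr rfl ?_
      intro C' hC'
      have hC'' : C' ∈ states R := Relation.ReflTransGen.tail hC hC'
      refine ih _ ?_ C' hC'' rfl
      rw [← hn]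
      have hCC' : R \ C' ⊂ R \ C := by
        obtain ⟨c, hc, a, d, hd, hca, hs, rfl⟩ := hC'
        refine ⟨fun x hx => ⟨hx.1, fun h => hx.2 (Or.inl h)⟩, fun h => ?_⟩
        exact (h hc.1).2 (Or.inr hca)
      exact Set.ncard_lt_ncard hCC' (hR.subset Set.sdiff_subset)

/-- `N(k)` is the value at `∅` of an explicit recursion over at most `5 k ^ 4 2 ^ (3 k ^ 2)` covered sets, with
at most three terms each. -/
theorem result (k : ℕ) (hk : 2 ≤ k) (R : Set (ℤ × ℤ × ℤ))
    (hR : R = benzel ((k : ℤ) * (3 * k - 1) / 2) ((k : ℤ) * (3 * k + 1) / 2)) :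
    (states R).Finite ∧ (states R).ncard ≤ 5 * k ^ 4 * 2 ^ (3 * k ^ 2) ∧
    (∀ C ∈ states R, (moves R C).Finite ∧ (moves R C).ncard ≤ 3) ∧
    ∀ f : Set (ℤ × ℤ × ℤ) → ℕ, f R = 1 →
      (∀ C ∈ states R, C ≠ R → f C = ∑ᶠ C' ∈ moves R C, f C') → f ∅ = tilingNumber k := by
  have hnum : tilingNumber k = cnt R := by rw [hR]; rfl
  obtain ⟨w, rfl⟩ : ∃ w, k = w + 1 := ⟨k - 1, by omega⟩
  rw [params] at hR
  have hS := benzel_Sz w
  rw [← hR] at hS
  have hp : Plane R := by
    intro c hc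
    rw [hR] at hc
    exact hc.1
  have h1 := two_tri w
  have h2 := two_tri (w + 1)
  have hW : ∀ c ∈ R, (W R c).ncard ≤ 3 * (w + 1) ^ 2 + 1 := by
    intro c hc
    rw [hR] at hc ⊢
    refine (W_card _ _ c hc (by positivity)).trans ?_
    have h1' : 2 * (tri w : ℤ) = w * (w + 1) := by exact_mod_cast h1
    have : (3 * (tri w : ℤ) + w + 1 + (3 * tri w + 2 * w + 2) + 1) = 3 * (w + 1) ^ 2 + 1 := by
      linear_combination 3 * h1'
    rw [this]
    apply le_of_eq
    have e : (3 * ((w : ℤ) + 1) ^ 2 + 1) = ((3 * (w + 1) ^ 2 + 1 : ℕ) : ℤ) := by push_cast; ring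
    rw [e, Int.toNat_natCast]
  have hc := states_card hS.1 hp _ hW
  refine ⟨hc.1, hc.2.trans ?_, fun C _ => moves_ncard R C, ?_⟩
  · rw [hS.2]
    have h3 : 4 * (9 * tri w * tri (w + 1)) = 9 * (w + 1) ^ 2 * (w * (w + 2)) := by
      calc 4 * (9 * tri w * tri (w + 1)) = 9 * (2 * tri w) * (2 * tri (w + 1)) := by ring
        _ = 9 * (w + 1) ^ 2 * (w * (w + 2)) := by rw [h1, h2]; ring
    have h4 : 2 * (9 * tri w * tri (w + 1)) + 1 ≤ 5 * (w + 1) ^ 4 := by
      nlinarith [Nat.zero_le w, Nat.zero_le (w ^ 2), Nat.zero_le (w ^ 3), Nat.zero_le (w ^ 4)]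
    have h5 : 1 ≤ 2 ^ (3 * (w + 1) ^ 2) := Nat.one_le_pow _ _ (by norm_num)
    calc 9 * tri w * tri (w + 1) * 2 ^ (3 * (w + 1) ^ 2 + 1) + 1
        ≤ 9 * tri w * tri (w + 1) * 2 ^ (3 * (w + 1) ^ 2 + 1) + 2 ^ (3 * (w + 1) ^ 2) :=
          Nat.add_le_add_left h5 _
      _ = (2 * (9 * tri w * tri (w + 1)) + 1) * 2 ^ (3 * (w + 1) ^ 2) := by ring
      _ ≤ 5 * (w + 1) ^ 4 * 2 ^ (3 * (w + 1) ^ 2) := Nat.mul_le_mul_right _ h4
  · intro f hf1 hf
    rw [hnum, value hS.1 hp hf1 hf _ ∅ Relation.ReflTransGen.refl rfl, Set.sdiff_empty]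

end Pool.Agent.Results.MP_001630_co.Recursion
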